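import Pool.Agent.Y105.RS.StmC
import Pool.Agent.Y291.RS.Niv

/-!
# The probability that two points near each other are in the same cycle (RS-PAIR)
-/

set_option autoImplicit false
set_option linter.unusedSectionVars false

open Finset Equiv

namespace Pool.Agent.Y322.RS

open Pool.Agent.Y105.RS
open Pool.Agent.Y291.RS (mean_mono mean_add mean_sub mean_smul mean_sum mean_const wt_nonneg)

section aux

variable {V : Type} [Fintype V] [DecidableEq V]

open Classical in
/-- the indicator of the same cycle -/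
noncomputable def sc (g : Perm V) (a b : V) : ℝ := if g.SameCycle a b then 1 else 0

/-- a representative of the cycle of a point -/
noncomputable def rep (g : Perm V) (a : V) : V :=
  Quotient.out (Quotient.mk (Perm.SameCycle.setoid g) a)

omit [Fintype V] [DecidableEq V] in
lemma rep_eq (g : Perm V) (a b : V) : rep g a = rep g b ↔ g.SameCycle a b := by
  unfold rep
  constructor
  · intro h
    have h1 := congrArg (Quotient.mk (Perm.SameCycle.setoid g)) h
    rw [Quotient.out_eq, Quotient.out_eq] at h1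
    exact Quotient.exact h1
  · intro h
    rw [Quotient.sound (s := Perm.SameCycle.setoid g) h]

/-- two different points have the same colour in `1 / m` of all colourings -/
lemma col_ne {a b : V} (hab : a ≠ b) (m : ℕ) :
    (m : ℝ) * ∑ ω : V → Fin m, (if ω a = ω b then (1 : ℝ) else 0) =
      (m : ℝ) ^ Fintype.card V := by
  have h0 : ∑ ω : V → Fin m, (if ω a = ω b then (1 : ℝ) else 0) =
      ∑ q : Fin m × ({j : V // j ≠ a} → Fin m),
        (if q.1 = q.2 ⟨b, hab.symm⟩ then (1 : ℝ) else 0) :=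
    Equiv.sum_comp (Equiv.funSplitAt a (Fin m))
      (fun q : Fin m × ({j : V // j ≠ a} → Fin m) =>
        (if q.1 = q.2 ⟨b, hab.symm⟩ then (1 : ℝ) else 0))
  rw [h0, Fintype.sum_prod_type_right]
  have h1 : ∀ q : {j : V // j ≠ a} → Fin m,
      ∑ u : Fin m, (if u = q ⟨b, hab.symm⟩ then (1 : ℝ) else 0) = 1 := by
    intro q
    rw [Finset.sum_ite_eq' univ (q ⟨b, hab.symm⟩) (fun _ => (1 : ℝ)), if_pos (Finset.mem_univ _)]
  simp only [h1]
  rw [Finset.sum_const, Finset.card_univ, Fintype.card_fun, Fintype.card_fin, nsmul_eq_mul,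
    mul_one]
  have h2 : Fintype.card {j : V // j ≠ a} + 1 = Fintype.card V := by
    have h3 := Fintype.card_subtype_compl (fun j : V => j = a)
    rw [Fintype.card_subtype_eq] at h3
    have h4 : 0 < Fintype.card V := Fintype.card_pos_iff.mpr ⟨a⟩
    have h5 : Fintype.card {j : V // j ≠ a} = Fintype.card V - 1 := h3
    omega
  rw [← h2, pow_succ]
  push_cast
  ring

/-- the mean over the colourings of the indicator of equal colours of two cycles -/
lemma col_sum (g : Perm V) (a b : V) {m : ℕ} (hm : 2 ≤ m) :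
    ∑ ω : V → Fin m, (if ω (rep g a) = ω (rep g b) then (1 : ℝ) else 0) =
      (m : ℝ) ^ Fintype.card V * ((1 - 1 / m) * sc g a b + 1 / m) := by
  have hm0 : (m : ℝ) ≠ 0 := by
    have : 0 < m := by omega
    positivity
  by_cases h : g.SameCycle a b
  · have h1 : rep g a = rep g b := (rep_eq g a b).mpr h
    have h2 : sc g a b = 1 := by
      unfold sc
      rw [if_pos h]
    rw [h2, h1]
    simp only [if_true]
    rw [Finset.sum_const, Finset.card_univ, Fintype.card_fun, Fintype.card_fin, nsmul_eq_mul]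
    push_cast
    ring
  · have h1 : rep g a ≠ rep g b := fun h' => h ((rep_eq g a b).mp h')
    have h2 : sc g a b = 0 := by
      unfold sc
      rw [if_neg h]
    have h3 := col_ne h1 m
    rw [h2, ← h3]
    field_simp
    ring

lemma sc_conj (g A : Perm V) (x z : V) : sc (A⁻¹ * g * A) x z = sc g (A x) (A z) := by
  unfold sc
  have h1 : (A⁻¹ * g * A).SameCycle x z ↔ g.SameCycle (A x) (A z) := by
    have h2 := Perm.sameCycle_conj (f := g) (g := A⁻¹) (x := x) (y := z)
    rw [inv_inv] at h2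
    exact h2
  by_cases h : g.SameCycle (A x) (A z)
  · rw [if_pos h, if_pos (h1.mpr h)]
  · rw [if_neg h, if_neg (fun h' => h (h1.mp h'))]

end aux

section main

variable {V : Type} [Fintype V] [DecidableEq V]

/-- the pairs exchanged by a letter are in the same cycle with probability `1 / (1 + ϑ)` -/
lemma pair_flip (h2 : S_FLIP) (h4 : S_NC) {p : V → V → ℝ} (hp : Wt p) {ϑ : ℝ} (hϑ : 0 < ϑ)
    {M : ℕ} (j : Fin M) :
    mean p M (fun w => ϑ ^ nc (wp w) * sc (wp w) (la w j) (lb w j)) =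
      1 / (1 + ϑ) * mean p M (fun w => ϑ ^ nc (wp w)) := by
  obtain ⟨_, _, h4c, _⟩ := h4
  have e1 : mean p M (fun w => ϑ ^ nc (wp w) * sc (wp w) (la w j) (lb w j)) =
      mean p M (fun w => ϑ ^ nc (swap (la w j) (lb w j) * wp w) *
        sc (swap (la w j) (lb w j) * wp w) (la w j) (lb w j)) :=
    h2 V p M j (fun g a b => ϑ ^ nc g * sc g a b)
  have e2 : mean p M (fun w => ϑ ^ nc (swap (la w j) (lb w j) * wp w) *
      sc (swap (la w j) (lb w j) * wp w) (la w j) (lb w j)) =
      mean p M (fun w => (1 / ϑ) *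
        (ϑ ^ nc (wp w) - ϑ ^ nc (wp w) * sc (wp w) (la w j) (lb w j))) := by
    unfold mean
    refine Finset.sum_congr rfl fun w _ => ?_
    by_cases hw : (w j).1.1 = (w j).1.2
    · have h0 : ∏ i, p (w i).1.1 (w i).1.2 / 2 = 0 := by
        refine Finset.prod_eq_zero (Finset.mem_univ j) ?_
        rw [hw, hp.diag, zero_div]
      rw [h0, zero_mul, zero_mul]
    · have hab : la w j ≠ lb w j := fun h => hw ((pre w j).injective h)
      obtain ⟨c1, c2, _⟩ := h4c V (wp w) (la w j) (lb w j) hab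
      congr 1
      beta_reduce
      by_cases hs : (wp w).SameCycle (la w j) (lb w j)
      · have s1 : sc (swap (la w j) (lb w j) * wp w) (la w j) (lb w j) = 0 := by
          unfold sc
          rw [if_neg (fun h => c1.mp h hs)]
        have s2 : sc (wp w) (la w j) (lb w j) = 1 := by
          unfold sc
          rw [if_pos hs]
        rw [s1, s2]
        ring
      · have s1 : sc (swap (la w j) (lb w j) * wp w) (la w j) (lb w j) = 1 := by
          unfold sc
          rw [if_pos (c1.mpr hs)]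
        have s2 : sc (wp w) (la w j) (lb w j) = 0 := by
          unfold sc
          rw [if_neg hs]
        rw [s1, s2, ← c2 hs, pow_succ]
        field_simp
        ring
  rw [e2, mean_smul, mean_sub] at e1
  have hϑ1 : (1 + ϑ) ≠ 0 := by positivity
  have hϑ0 : ϑ ≠ 0 := hϑ.ne'
  generalize mean p M (fun w => ϑ ^ nc (wp w) * sc (wp w) (la w j) (lb w j)) = X at e1 ⊢
  generalize mean p M (fun w => ϑ ^ nc (wp w)) = Z at e1 ⊢
  rw [one_div, eq_inv_mul_iff_mul_eq₀ hϑ0] at e1
  rw [one_div, eq_inv_mul_iff_mul_eq₀ hϑ1]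
  linarith

lemma pair_rot (h3 : S_ROT) (h4 : S_NC) (p : V → V → ℝ) (ϑ : ℝ) {M : ℕ} (j : Fin M) (x z : V) :
    mean p M (fun w => ϑ ^ nc (wp w) * sc (wp w) (pre w j x) (pre w j z)) =
      mean p M (fun w => ϑ ^ nc (wp w) * sc (wp w) x z) := by
  have e1 : mean p M (fun w => ϑ ^ nc ((pre w j)⁻¹ * wp w * pre w j) *
      sc ((pre w j)⁻¹ * wp w * pre w j) x z) =
      mean p M (fun w => ϑ ^ nc (wp w) * sc (wp w) x z) :=
    h3 V p M j (fun g => ϑ ^ nc g * sc g x z)
  rw [← e1]
  congr 1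
  funext w
  rw [h4.2.1 V (wp w) (pre w j), sc_conj]

lemma avg_comm {ι : Type*} (s : Finset ι) (p r : V → V → ℝ) (F : ι → V → V → ℝ) :
    ∑ ω ∈ s, ∑ x, ∑ y, p x y * ∑ z, r y z * F ω x z =
      ∑ x, ∑ y, p x y * ∑ z, r y z * ∑ ω ∈ s, F ω x z := by
  rw [Finset.sum_comm]
  refine Finset.sum_congr rfl fun x _ => ?_
  rw [Finset.sum_comm]
  refine Finset.sum_congr rfl fun y _ => ?_
  rw [← Finset.mul_sum]
  congr 1
  rw [Finset.sum_comm]
  refine Finset.sum_congr rfl fun z _ => ?_
  rw [← Finset.mul_sum]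

lemma mean_avg {M : ℕ} (q p r : V → V → ℝ) (F : (Fin M → Lt V) → V → V → ℝ) :
    mean q M (fun w => ∑ x, ∑ y, p x y * ∑ z, r y z * F w x z) =
      ∑ x, ∑ y, p x y * ∑ z, r y z * mean q M (fun w => F w x z) := by
  rw [mean_sum]
  refine Finset.sum_congr rfl fun x _ => ?_
  rw [mean_sum]
  refine Finset.sum_congr rfl fun y _ => ?_
  rw [mean_smul]
  congr 1
  rw [mean_sum]
  refine Finset.sum_congr rfl fun z _ => ?_
  rw [mean_smul]

lemma avg_aff [Nonempty V] {p r : V → V → ℝ} {κ : ℝ} (hp : Wt p) (hr : Ker r κ) (a b : ℝ)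
    (f : V → V → ℝ) :
    ∑ x, ∑ y, p x y * ∑ z, r y z * (a * f x z + b) =
      a * (∑ x, ∑ y, p x y * ∑ z, r y z * f x z) + b := by
  have hn : (Fintype.card V : ℝ) ≠ 0 := by exact_mod_cast Fintype.card_ne_zero
  have h1 : ∀ x y, ∑ z, r y z * (a * f x z + b) = a * ∑ z, r y z * f x z + b := by
    intro x y
    have e1 : ∀ z, r y z * (a * f x z + b) = a * (r y z * f x z) + b * r y z := fun z => by ring
    rw [Finset.sum_congr rfl (fun z _ => e1 z), Finset.sum_add_distrib, ← Finset.mul_sum,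
      ← Finset.mul_sum, hr.sum, mul_one]
  have h2 : ∀ x, ∑ y, p x y * ∑ z, r y z * (a * f x z + b) =
      a * (∑ y, p x y * ∑ z, r y z * f x z) + b * (1 / Fintype.card V) := by
    intro x
    have e1 : ∀ y, p x y * ∑ z, r y z * (a * f x z + b) =
        a * (p x y * ∑ z, r y z * f x z) + b * p x y := fun y => by rw [h1]; ring
    rw [Finset.sum_congr rfl (fun y _ => e1 y), Finset.sum_add_distrib, ← Finset.mul_sum,
      ← Finset.mul_sum, hp.reg]
  rw [Finset.sum_congr rfl (fun x _ => h2 x), Finset.sum_add_distrib, ← Finset.mul_sum,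
    Finset.sum_const, Finset.card_univ, nsmul_eq_mul]
  field_simp

/-- **RS-PAIR.** -/
theorem pair (h1 : S_QRW) (h2 : S_FLIP) (h3 : S_ROT) (h4 : S_NC) : S_PAIR := by
  refine ⟨80, by norm_num, ?_⟩
  intro ϑ hϑ V _ _ _ p r κ τ hp hr hτ hC m M hm hM
  have hm0 : (0 : ℝ) < m := by
    have : 0 < m := by omega
    exact_mod_cast this
  have hm2 : (2 : ℝ) ≤ m := by exact_mod_cast hm
  have hM0 : (0 : ℝ) < M := by exact_mod_cast hM
  have hκ : 0 ≤ κ := by
    obtain ⟨y⟩ := ‹Nonempty V›
    exact (hr.nn y y).trans (hr.le y y)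
  obtain ⟨Z, hZ⟩ : ∃ Z, Z = mean p M (fun w => ϑ ^ nc (wp w)) := ⟨_, rfl⟩
  obtain ⟨n, hn⟩ : ∃ n, n = Fintype.card V := ⟨_, rfl⟩
  obtain ⟨L, hL⟩ : ∃ L, L = |Real.log ϑ| := ⟨_, rfl⟩
  have hL0 : 0 ≤ L := by rw [hL]; exact abs_nonneg _
  have hexp : ∀ g : Perm V, ϑ ^ nc g = Real.exp (nc g * Real.log ϑ) := by
    intro g
    rw [← Real.log_pow, Real.exp_log (pow_pos hϑ _)]
  have hcard : ∀ g : Perm V, (nc g : ℝ) ≤ n := by
    intro g
    rw [hn]
    exact_mod_cast h4.1 V g
  have hup : ∀ g : Perm V, ϑ ^ nc g ≤ Real.exp (n * L) := by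
    intro g
    rw [hexp]
    apply Real.exp_le_exp.mpr
    calc (nc g : ℝ) * Real.log ϑ ≤ nc g * L := by
          rw [hL]
          exact mul_le_mul_of_nonneg_left (le_abs_self _) (Nat.cast_nonneg _)
      _ ≤ n * L := mul_le_mul_of_nonneg_right (hcard g) hL0
  have hlo : ∀ g : Perm V, Real.exp (-(n * L)) ≤ ϑ ^ nc g := by
    intro g
    rw [hexp]
    apply Real.exp_le_exp.mpr
    have e1 : -((nc g : ℝ) * L) ≤ nc g * Real.log ϑ := by
      have e2 : (nc g : ℝ) * (-L) ≤ nc g * Real.log ϑ := by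
        rw [hL]
        exact mul_le_mul_of_nonneg_left (neg_abs_le _) (Nat.cast_nonneg _)
      linarith
    have e3 : (nc g : ℝ) * L ≤ n * L := mul_le_mul_of_nonneg_right (hcard g) hL0
    linarith
  have hZlo : Real.exp (-(n * L)) ≤ Z := by
    have e1 := mean_mono hp (M := M) (fun w => hlo (wp w))
    rw [mean_const hp] at e1
    rw [hZ]
    exact e1
  have hZ0 : 0 < Z := lt_of_lt_of_le (Real.exp_pos _) hZlo
  obtain ⟨S, hS⟩ : ∃ S, S = ∑ x, ∑ y, p x y * ∑ z, r y z *
      mean p M (fun w => ϑ ^ nc (wp w) * sc (wp w) x z) := ⟨_, rfl⟩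
  obtain ⟨R, hR⟩ : ∃ R, R = Real.sqrt ((1 + τ) * (n * (Real.log m + 2 * L)) / M) := ⟨_, rfl⟩
  have hR0 : 0 ≤ R := by rw [hR]; exact Real.sqrt_nonneg _
  -- quasirandomness for every colouring
  have hq : ∀ ω : V → Fin m, |mean p M (fun w => ϑ ^ nc (wp w) * ((∑ j,
      ((if ω (rep (wp w) (la w j)) = ω (rep (wp w) (lb w j)) then (1 : ℝ) else 0) -
        ∑ x, ∑ y, p x y * ∑ z, r y z *
          (if ω (rep (wp w) (pre w j x)) = ω (rep (wp w) (pre w j z)) then (1 : ℝ) else 0))) /
            M))| ≤ (20 * R + 4 * κ) * Z := by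
    intro ω
    have e1 := h1 V p r κ τ hp hr hτ hC m M hm hM Unit
      (fun _ a b => if a = b then (1 : ℝ) else 0)
      (by intro t a b; simp only [eq_comm])
      (by intro t a b; split_ifs <;> simp)
      (fun w => ϑ ^ nc (wp w)) (fun w => ϑ ^ nc (wp w)) (2 * n * L)
      (fun w => (pow_pos hϑ _).le) (fun w => le_rfl) (by positivity)
      (fun w => by
        rw [← hZ]
        calc ϑ ^ nc (wp w) ≤ Real.exp (n * L) := hup _
          _ = Real.exp (2 * n * L) * Real.exp (-(n * L)) := by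
            rw [← Real.exp_add]
            congr 1
            ring
          _ ≤ Real.exp (2 * n * L) * Z :=
            mul_le_mul_of_nonneg_left hZlo (Real.exp_pos _).le)
      (fun _ => ()) (fun w v => ω (rep (wp w) v))
    rw [Fintype.card_unit, Nat.cast_one, Real.log_one, add_zero, ← hn] at e1
    have e2 : (n : ℝ) * Real.log m + 2 * n * L = n * (Real.log m + 2 * L) := by ring
    rw [e2, ← hR, ← hZ] at e1
    exact e1
  -- the sum over the colourings
  have hsum : ∑ ω : V → Fin m, mean p M (fun w => ϑ ^ nc (wp w) * ((∑ j,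
      ((if ω (rep (wp w) (la w j)) = ω (rep (wp w) (lb w j)) then (1 : ℝ) else 0) -
        ∑ x, ∑ y, p x y * ∑ z, r y z *
          (if ω (rep (wp w) (pre w j x)) = ω (rep (wp w) (pre w j z)) then (1 : ℝ) else 0))) /
            M)) = (m : ℝ) ^ n * (1 - 1 / m) * (1 / (1 + ϑ) * Z - S) := by
    rw [← mean_sum]
    have e1 : ∀ w : Fin M → Lt V, ∑ ω : V → Fin m, ϑ ^ nc (wp w) * ((∑ j,
      ((if ω (rep (wp w) (la w j)) = ω (rep (wp w) (lb w j)) then (1 : ℝ) else 0) -
        ∑ x, ∑ y, p x y * ∑ z, r y z *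
          (if ω (rep (wp w) (pre w j x)) = ω (rep (wp w) (pre w j z)) then (1 : ℝ) else 0))) /
            M) = ((m : ℝ) ^ n * (1 - 1 / m) / M) * ∑ j,
        (ϑ ^ nc (wp w) * sc (wp w) (la w j) (lb w j) -
          ∑ x, ∑ y, p x y * ∑ z, r y z *
            (ϑ ^ nc (wp w) * sc (wp w) (pre w j x) (pre w j z))) := by
      intro w
      rw [← Finset.mul_sum, ← Finset.sum_div, Finset.sum_comm]
      have e2 : ∀ j : Fin M, ∑ ω : V → Fin m,
          ((if ω (rep (wp w) (la w j)) = ω (rep (wp w) (lb w j)) then (1 : ℝ) else 0) -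
            ∑ x, ∑ y, p x y * ∑ z, r y z *
              (if ω (rep (wp w) (pre w j x)) = ω (rep (wp w) (pre w j z)) then (1 : ℝ)
                else 0)) = (m : ℝ) ^ n * (1 - 1 / m) * (sc (wp w) (la w j) (lb w j) -
            ∑ x, ∑ y, p x y * ∑ z, r y z * sc (wp w) (pre w j x) (pre w j z)) := by
        intro j
        rw [Finset.sum_sub_distrib, col_sum (wp w) _ _ hm, avg_comm univ p r
          (fun (ω : V → Fin m) x z =>
            if ω (rep (wp w) (pre w j x)) = ω (rep (wp w) (pre w j z)) then (1 : ℝ) else 0)]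
        have e3 : ∀ x z : V, ∑ ω : V → Fin m,
            (if ω (rep (wp w) (pre w j x)) = ω (rep (wp w) (pre w j z)) then (1 : ℝ) else 0) =
            (m : ℝ) ^ n * (1 - 1 / m) * sc (wp w) (pre w j x) (pre w j z) +
              (m : ℝ) ^ n * (1 / m) := by
          intro x z
          rw [col_sum (wp w) _ _ hm, hn]
          ring
        simp only [e3]
        rw [avg_aff hp hr _ _ (fun x z => sc (wp w) (pre w j x) (pre w j z)), hn]
        ring
      rw [Finset.sum_congr rfl (fun j _ => e2 j), ← Finset.mul_sum]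
      have e4 : ∀ j : Fin M, (ϑ ^ nc (wp w) * sc (wp w) (la w j) (lb w j) -
          ∑ x, ∑ y, p x y * ∑ z, r y z *
            (ϑ ^ nc (wp w) * sc (wp w) (pre w j x) (pre w j z))) =
          ϑ ^ nc (wp w) * (sc (wp w) (la w j) (lb w j) -
            ∑ x, ∑ y, p x y * ∑ z, r y z * sc (wp w) (pre w j x) (pre w j z)) := by
        intro j
        have e5 := avg_aff hp hr (ϑ ^ nc (wp w)) 0
          (fun x z => sc (wp w) (pre w j x) (pre w j z))
        simp only [add_zero] at e5
        rw [e5]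
        ring
      rw [Finset.sum_congr rfl (fun j _ => e4 j), ← Finset.mul_sum]
      ring
    have e6 : (fun w : Fin M → Lt V => ∑ ω : V → Fin m, ϑ ^ nc (wp w) * ((∑ j,
      ((if ω (rep (wp w) (la w j)) = ω (rep (wp w) (lb w j)) then (1 : ℝ) else 0) -
        ∑ x, ∑ y, p x y * ∑ z, r y z *
          (if ω (rep (wp w) (pre w j x)) = ω (rep (wp w) (pre w j z)) then (1 : ℝ) else 0))) /
            M)) = fun w => ((m : ℝ) ^ n * (1 - 1 / m) / M) * ∑ j,
        (ϑ ^ nc (wp w) * sc (wp w) (la w j) (lb w j) -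
          ∑ x, ∑ y, p x y * ∑ z, r y z *
            (ϑ ^ nc (wp w) * sc (wp w) (pre w j x) (pre w j z))) := funext e1
    rw [e6, mean_smul, mean_sum]
    have e7 : ∀ j : Fin M, mean p M (fun w => (ϑ ^ nc (wp w) * sc (wp w) (la w j) (lb w j) -
          ∑ x, ∑ y, p x y * ∑ z, r y z *
            (ϑ ^ nc (wp w) * sc (wp w) (pre w j x) (pre w j z)))) = 1 / (1 + ϑ) * Z - S := by
      intro j
      rw [mean_sub, pair_flip h2 h4 hp hϑ j, mean_avg, hZ, hS]
      congr 1
      refine Finset.sum_congr rfl fun x _ => Finset.sum_congr rfl fun y _ => ?_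
      congr 1
      refine Finset.sum_congr rfl fun z _ => ?_
      rw [pair_rot h3 h4]
    rw [Finset.sum_congr rfl (fun j _ => e7 j), Finset.sum_const, Finset.card_univ,
      Fintype.card_fin, nsmul_eq_mul]
    field_simp
  have hfin : |(m : ℝ) ^ n * (1 - 1 / m) * (1 / (1 + ϑ) * Z - S)| ≤
      (m : ℝ) ^ n * ((20 * R + 4 * κ) * Z) := by
    rw [← hsum]
    refine (Finset.abs_sum_le_sum_abs _ _).trans ((Finset.sum_le_sum fun ω _ => hq ω).trans ?_)
    rw [Finset.sum_const, Finset.card_univ, Fintype.card_fun, Fintype.card_fin, nsmul_eq_mul, hn]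
    push_cast
    exact le_rfl
  have hmn : (0 : ℝ) < (m : ℝ) ^ n := by positivity
  rw [mul_assoc, abs_mul, abs_of_pos hmn] at hfin
  have hfin2 := le_of_mul_le_mul_left hfin hmn
  have hhalf : (1 : ℝ) / 2 ≤ 1 - 1 / m := by
    have : (1 : ℝ) / m ≤ 1 / 2 := one_div_le_one_div_of_le (by norm_num) hm2
    linarith
  rw [abs_mul, abs_of_pos (by linarith : (0 : ℝ) < 1 - 1 / m)] at hfin2
  have hfin3 : 1 / 2 * |1 / (1 + ϑ) * Z - S| ≤ (20 * R + 4 * κ) * Z :=
    (mul_le_mul_of_nonneg_right hhalf (abs_nonneg _)).trans hfin2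
  have hgoal : ∑ x, ∑ y, p x y * ∑ z, r y z * mean p M (fun w => ϑ ^ nc (wp w) *
        (if (wp w).SameCycle x z then 1 else 0)) = S := by
    rw [hS]
    refine Finset.sum_congr rfl fun x _ => Finset.sum_congr rfl fun y _ => ?_
    congr 1
  have hlast : |S - 1 / (1 + ϑ) * Z| ≤ 80 * (1 / m + κ + R) * Z := by
    rw [abs_sub_comm]
    have e1 : 0 ≤ 1 / (m : ℝ) * Z := by positivity
    have e2 : 0 ≤ κ * Z := by positivity
    have e3 : 0 ≤ R * Z := by positivity
    nlinarith [hfin3, e1, e2, e3]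
  rw [← hZ, ← hn, ← hL, ← hR]
  have h9 := hlast
  rw [← hgoal] at h9
  convert h9 using 2

end main

end Pool.Agent.Y322.RS
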